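import Pool.Agent.PQP.StmtsN

/-!
# Squad PQP, row PSN: a normalised function near its minimum
-/

set_option autoImplicit false

open scoped InnerProductSpace Topology ContDiff Manifold
open MeasureTheory Filter Set

noncomputable section

namespace Pool.Agent.PQP.H6

open Pool.Agent.Helper42_Paneitz Pool.Agent.Helper82_Vir Pool.Agent.FLX

theorem inner_comm_S4 (x N : S4) : ⟪(x : E5), (N : E5)⟫_ℝ = ⟪(N : E5), (x : E5)⟫_ℝ :=
  real_inner_comm _ _

theorem psn_min {ψ : S4 → ℝ} {N : S4} (h : Psi ψ N) (y : S4) : ψ N ≤ ψ y := by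
  rw [h.2.1]
  by_cases hy : y = N
  · rw [hy, h.2.1]
  · exact (h.2.2.1 y hy).le

theorem psn_aux {t τ n : ℝ} (ht : 0 < t) (h4 : τ * t = 1) (h1 : 1 ≤ τ) (h2 : τ ^ 2 = 1 + n ^ 2) :
    1 - t ≤ n ^ 2 := by
  have h5 : t ≤ 1 := by nlinarith
  have h6 : 1 - t ≤ τ - 1 := by nlinarith
  nlinarith

/-- the first claim, near `N` -/
theorem psn_one {ψ : S4 → ℝ} {N : S4} (h : Psi ψ N) :
    ∃ m : ℝ, 0 < m ∧ ∀ᶠ x : S4 in 𝓝 N, m * (1 - ⟪(N : E5), (x : E5)⟫_ℝ) ≤ - dd ψ x (N : E5) := by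
  have hf : Sm ψ := h.1
  have hnd := h.2.2.2.1
  obtain ⟨m, hm0, hm⟩ := hess_lower hf (psn_min h) hnd
  refine ⟨m, hm0, ?_⟩
  set G : E5 → E5 →L[ℝ] ℝ := fderiv ℝ (radialExt ψ) with hG
  have hN0 := S4_ne_zero N
  have hN1 := S4_norm N
  have hGN : G (N : E5) = 0 := by
    ext v; exact hnd.1 v
  have hGd : HasFDerivAt G (fderiv ℝ G (N : E5)) (N : E5) := by
    have h1 : ContDiffAt ℝ ∞ G (N : E5) := (hf N hN0).fderiv_right (by simp)
    exact (h1.differentiableAt (by simp)).hasFDerivAt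
  set HG := fderiv ℝ G (N : E5) with hHG
  have hlo := hGd.isLittleO
  have hev : ∀ᶠ y in 𝓝 (N : E5), ‖G y - G (N : E5) - HG (y - N)‖ ≤ m * ‖y - (N : E5)‖ :=
    hlo.def hm0
  set y : S4 → E5 := fun x => (⟪(x : E5), (N : E5)⟫_ℝ)⁻¹ • (x : E5) with hy
  have hNN : ⟪(N : E5), (N : E5)⟫_ℝ = 1 := by rw [real_inner_self_eq_norm_sq, hN1]; norm_num
  have hic : Continuous fun x : S4 => ⟪(x : E5), (N : E5)⟫_ℝ :=
    continuous_subtype_val.inner continuous_const
  have hyc : ContinuousAt y N := by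
    refine ContinuousAt.smul (ContinuousAt.inv₀ hic.continuousAt ?_) ?_
    · rw [hNN]; exact one_ne_zero
    · exact continuous_subtype_val.continuousAt
  have hyN : y N = (N : E5) := by
    simp only [hy, hNN, inv_one, one_smul]
  have hev2 : ∀ᶠ x in 𝓝 N, ‖G (y x) - G (N : E5) - HG (y x - N)‖ ≤ m * ‖y x - (N : E5)‖ := by
    have : Tendsto y (𝓝 N) (𝓝 (N : E5)) := by
      have := hyc.tendsto; rwa [hyN] at this
    exact this.eventually hev
  have hev3 : ∀ᶠ x : S4 in 𝓝 N, 0 < ⟪(x : E5), (N : E5)⟫_ℝ := by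
    have h2 : (0 : ℝ) < ⟪(N : E5), (N : E5)⟫_ℝ := by rw [hNN]; exact one_pos
    exact (hic.tendsto N).eventually (lt_mem_nhds h2)
  filter_upwards [hev2, hev3] with x hx2 hx3
  rw [← inner_comm_S4]
  set t : ℝ := ⟪(x : E5), (N : E5)⟫_ℝ with ht
  set v : E5 := y x - (N : E5) with hv
  have hyx : y x = t⁻¹ • (x : E5) := rfl
  have hxy : (x : E5) = t • y x := by rw [hyx, smul_smul, mul_inv_cancel₀ hx3.ne', one_smul]
  have hyv : y x = (N : E5) + v := by rw [hv]; abel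
  have hvN : ⟪(N : E5), v⟫_ℝ = 0 := by
    rw [hv, inner_sub_right, hyx, inner_smul_right, real_inner_comm, ← ht, hNN,
      inv_mul_cancel₀ hx3.ne', sub_self]
  have hyne : y x ≠ 0 := by
    rw [hyx]; exact smul_ne_zero (inv_ne_zero hx3.ne') (S4_ne_zero x)
  set τ : ℝ := t⁻¹ with hτ
  have hτ2 : τ ^ 2 = 1 + ‖v‖ ^ 2 := by
    have h1 : ‖y x‖ ^ 2 = 1 + ‖v‖ ^ 2 := by
      rw [hyv, norm_add_sq_real, hN1, hvN]; ring
    rw [hyx, norm_smul, S4_norm, mul_one, Real.norm_eq_abs, sq_abs] at h1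
    exact h1
  have hτ0 : 0 < τ := inv_pos.2 hx3
  have hτ1 : 1 ≤ τ := by nlinarith [sq_nonneg ‖v‖]
  have hGv : m * ‖v‖ ^ 2 ≤ G (y x) v := by
    have h1 := hm v hvN
    have h2 : |G (y x) v - HG v v| ≤ m * ‖v‖ * ‖v‖ := by
      have h3 : G (y x) v - HG v v = (G (y x) - G (N : E5) - HG (y x - N)) v := by
        rw [hGN, sub_zero]
        rfl
      rw [h3]
      exact (ContinuousLinearMap.le_opNorm _ _).trans
        (mul_le_mul_of_nonneg_right hx2 (norm_nonneg _))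
    have h4 := (abs_le.1 h2).1
    have h5 : hess ψ N v v = HG v v := rfl
    rw [h5] at h1
    nlinarith
  have hGx : ∀ w : E5, G (x : E5) w = t⁻¹ * G (y x) w := by
    intro w
    have h := fderiv_radialExt_smul hf hx3 hyne w
    rw [← hxy] at h
    exact h
  have hGy : G (y x) (y x) = 0 := by
    have h1 := dd_self hf x
    have h2 : G (x : E5) (x : E5) = 0 := h1
    rw [hGx] at h2
    have h4 : G (y x) (x : E5) = 0 := by
      rcases mul_eq_zero.1 h2 with h | h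
      · exact absurd h (inv_ne_zero hx3.ne')
      · exact h
    rw [hyx, map_smul, ← hyx, h4, smul_zero]
  have hGN2 : G (y x) (N : E5) = - G (y x) v := by
    have h1 : (N : E5) = y x - v := by rw [hv]; abel
    rw [h1, map_sub, hGy, zero_sub]
  have hval : - dd ψ x (N : E5) = τ * G (y x) v := by
    have h1 : dd ψ x (N : E5) = G (x : E5) (N : E5) := rfl
    rw [h1, hGx, hGN2]
    ring
  rw [hval]
  have h3 : 1 - t ≤ ‖v‖ ^ 2 := psn_aux hx3 (inv_mul_cancel₀ hx3.ne') hτ1 hτ2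
  have h6 : m * (1 - t) ≤ m * ‖v‖ ^ 2 := mul_le_mul_of_nonneg_left h3 hm0.le
  have h7 : 0 ≤ G (y x) v := le_trans (by positivity) hGv
  have h8 : G (y x) v ≤ τ * G (y x) v := le_mul_of_one_le_left h7 hτ1
  linarith

/-- the second claim -/
theorem psn_two {ψ : S4 → ℝ} {N : S4} (h : Psi ψ N) :
    ∃ C : ℝ, 0 ≤ C ∧ ∀ (x : S4) (v : E5), |dd ψ x v| ≤ C * ‖(x : E5) - (N : E5)‖ * ‖v‖ := by
  have hf : Sm ψ := h.1
  choose L hL0 hL using fun i : Fin 5 => sm_lipschitz (sm_dd hf (ee i))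
  refine ⟨∑ i, L i, Finset.sum_nonneg fun i _ => hL0 i, fun x v => ?_⟩
  rw [dd_eq_sum, Finset.sum_mul, Finset.sum_mul]
  refine (Finset.abs_sum_le_sum_abs _ _).trans (Finset.sum_le_sum fun i _ => ?_)
  have h1 := hL i x N
  rw [h.2.2.2.1.1 (ee i), sub_zero] at h1
  rw [abs_mul, mul_comm]
  exact mul_le_mul h1 (PiLp.norm_apply_le v i) (abs_nonneg _)
    (mul_nonneg (hL0 i) (norm_nonneg _))

/-- the third claim -/
theorem psn_three {ψ : S4 → ℝ} {N : S4} (h : Psi ψ N) :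
    ∃ C : ℝ, 0 ≤ C ∧ ∀ x : S4, ψ x ≤ C * (1 - ⟪(N : E5), (x : E5)⟫_ℝ) := by
  have hf : Sm ψ := h.1
  obtain ⟨C, hC0, hC⟩ := psn_two h
  obtain ⟨B, hB0, hB⟩ := exists_bound (continuous_of_sm hf)
  refine ⟨2 * (4 * C + B), by positivity, fun x => ?_⟩
  have hsq : ‖(x : E5) - (N : E5)‖ ^ 2 = 2 * (1 - ⟪(N : E5), (x : E5)⟫_ℝ) := by
    rw [norm_sub_sq_S4, inner_comm_S4]
  have hgoal : ψ x ≤ (4 * C + B) * ‖(x : E5) - (N : E5)‖ ^ 2 → ψ x ≤
      2 * (4 * C + B) * (1 - ⟪(N : E5), (x : E5)⟫_ℝ) := by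
    intro h1; rw [hsq] at h1; linarith
  apply hgoal
  have hn := norm_nonneg ((x : E5) - (N : E5))
  rcases le_or_gt ‖(x : E5) - (N : E5)‖ 1 with h1 | h1
  · -- mean value inequality along the segment
    have hdist : ∀ z ∈ segment ℝ (N : E5) (x : E5), ‖z - (N : E5)‖ ≤ ‖(x : E5) - (N : E5)‖ := by
      intro z hz
      rw [segment_eq_image] at hz
      obtain ⟨t, ht, rfl⟩ := hz
      have e : (1 - t) • (N : E5) + t • (x : E5) - (N : E5) = t • ((x : E5) - (N : E5)) := by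
        module
      show ‖(1 - t) • (N : E5) + t • (x : E5) - (N : E5)‖ ≤ _
      rw [e, norm_smul, Real.norm_of_nonneg ht.1]
      exact mul_le_of_le_one_left hn ht.2
    have hseg : ∀ z ∈ segment ℝ (N : E5) (x : E5), 1 / 2 ≤ ‖z‖ := by
      intro z hz
      rw [segment_eq_image] at hz
      obtain ⟨t, ht, rfl⟩ := hz
      rcases le_or_gt t (1 / 2) with h2 | h2
      · have e : (1 - t) • (N : E5) + t • (x : E5) = (N : E5) + t • ((x : E5) - (N : E5)) := by
          module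
        have h3 : ‖(N : E5)‖ - ‖t • ((x : E5) - (N : E5))‖ ≤
            ‖(1 - t) • (N : E5) + t • (x : E5)‖ := by
          rw [e]
          have := norm_sub_norm_le (N : E5) (-(t • ((x : E5) - (N : E5))))
          rwa [norm_neg, sub_neg_eq_add] at this
        rw [S4_norm, norm_smul, Real.norm_of_nonneg ht.1] at h3
        have : t * ‖(x : E5) - (N : E5)‖ ≤ 1 / 2 := by nlinarith [ht.1]
        show 1 / 2 ≤ ‖(1 - t) • (N : E5) + t • (x : E5)‖
        linarith
      · have e : (1 - t) • (N : E5) + t • (x : E5) = (x : E5) - (1 - t) • ((x : E5) - (N : E5)) := by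
          module
        have h3 : ‖(x : E5)‖ - ‖(1 - t) • ((x : E5) - (N : E5))‖ ≤
            ‖(1 - t) • (N : E5) + t • (x : E5)‖ := by
          rw [e]
          exact norm_sub_norm_le _ _
        have ht1 : 0 ≤ 1 - t := by linarith [ht.2]
        rw [S4_norm, norm_smul, Real.norm_of_nonneg ht1] at h3
        have : (1 - t) * ‖(x : E5) - (N : E5)‖ ≤ 1 / 2 := by nlinarith
        show 1 / 2 ≤ ‖(1 - t) • (N : E5) + t • (x : E5)‖
        linarith
    have hne : ∀ z ∈ segment ℝ (N : E5) (x : E5), z ≠ 0 := by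
      intro z hz h0
      have := hseg z hz
      rw [h0, norm_zero] at this
      norm_num at this
    have hder : ∀ z ∈ segment ℝ (N : E5) (x : E5),
        HasFDerivWithinAt (radialExt ψ) (fderiv ℝ (radialExt ψ) z)
          (segment ℝ (N : E5) (x : E5)) z :=
      fun z hz => ((sm_diffAt hf (hne z hz)).hasFDerivAt).hasFDerivWithinAt
    have hbd : ∀ z ∈ segment ℝ (N : E5) (x : E5),
        ‖fderiv ℝ (radialExt ψ) z‖ ≤ 4 * C * ‖(x : E5) - (N : E5)‖ := by
      intro z hz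
      refine ContinuousLinearMap.opNorm_le_bound _ (by positivity) fun v => ?_
      have hz0 := hne z hz
      have hzn := norm_pos_of_ne hz0
      set w : S4 := ⟨‖z‖⁻¹ • z, normalize_mem hz0⟩ with hw
      have hz1 : z = ‖z‖ • (w : E5) := by
        show z = ‖z‖ • (‖z‖⁻¹ • z)
        rw [smul_smul, mul_inv_cancel₀ hzn.ne', one_smul]
      have h4 : fderiv ℝ (radialExt ψ) z v = ‖z‖⁻¹ * dd ψ w v := by
        conv_lhs => rw [hz1]
        exact fderiv_radialExt_smul hf hzn (S4_ne_zero w) v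
      rw [h4, norm_mul, norm_inv, norm_norm, Real.norm_eq_abs]
      have h2 : ‖z‖⁻¹ ≤ 2 := by
        rw [inv_le_comm₀ hzn (by norm_num)]
        have := hseg z hz
        linarith
      have hwz : ‖(w : E5) - z‖ ≤ ‖z - (N : E5)‖ := by
        have e : (w : E5) - z = (1 - ‖z‖) • (w : E5) := by
          conv_lhs => rw [hz1]
          rw [sub_smul, one_smul]
        rw [e, norm_smul, S4_norm, mul_one, Real.norm_eq_abs]
        have h5 := abs_norm_sub_norm_le (N : E5) z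
        rw [S4_norm, norm_sub_rev] at h5
        exact h5
      have hwN : ‖(w : E5) - (N : E5)‖ ≤ 2 * ‖(x : E5) - (N : E5)‖ := by
        have e : (w : E5) - (N : E5) = ((w : E5) - z) + (z - (N : E5)) := by abel
        rw [e]
        refine (norm_add_le _ _).trans ?_
        have := hdist z hz
        linarith
      have h5 : |dd ψ w v| ≤ C * (2 * ‖(x : E5) - (N : E5)‖) * ‖v‖ :=
        (hC w v).trans (mul_le_mul_of_nonneg_right (mul_le_mul_of_nonneg_left hwN hC0)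
          (norm_nonneg v))
      calc ‖z‖⁻¹ * |dd ψ w v| ≤ 2 * (C * (2 * ‖(x : E5) - (N : E5)‖) * ‖v‖) :=
            mul_le_mul h2 h5 (abs_nonneg _) (by norm_num)
        _ = 4 * C * ‖(x : E5) - (N : E5)‖ * ‖v‖ := by ring
    have := (convex_segment (N : E5) (x : E5)).norm_image_sub_le_of_norm_hasFDerivWithin_le
      hder hbd (left_mem_segment ℝ _ _) (right_mem_segment ℝ _ _)
    rw [radialExt_coe, radialExt_coe, Real.norm_eq_abs, h.2.1, sub_zero] at this
    have h6 := (le_abs_self (ψ x)).trans this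
    nlinarith [mul_nonneg hB0 (sq_nonneg ‖(x : E5) - (N : E5)‖)]
  · have h2 := (le_abs_self (ψ x)).trans (hB x)
    have h3 : 1 ≤ ‖(x : E5) - (N : E5)‖ ^ 2 := by nlinarith
    nlinarith

/-- **PSN**. -/
theorem psn : PsnStmt := by
  intro ψ N h
  obtain ⟨m, hm0, hm⟩ := psn_one h
  obtain ⟨C₁, hC₁, h2⟩ := psn_two h
  obtain ⟨C₂, hC₂, h3⟩ := psn_three h
  obtain ⟨ε, hε, hball⟩ := Metric.eventually_nhds_iff.1 hm
  refine ⟨m, min 1 (ε ^ 2 / 4), C₁ + C₂ + 1, hm0, lt_min one_pos (by positivity), min_le_left _ _,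
    by positivity, ?_, ?_, ?_⟩
  · intro x hx
    apply hball
    have h4 : 1 - ⟪(N : E5), (x : E5)⟫_ℝ ≤ min 1 (ε ^ 2 / 4) := hx
    have h5 := h4.trans (min_le_right _ _)
    have h6 : ‖(x : E5) - (N : E5)‖ ^ 2 = 2 * (1 - ⟪(N : E5), (x : E5)⟫_ℝ) := by
      rw [norm_sub_sq_S4, inner_comm_S4]
    have h7 : dist x N = ‖(x : E5) - (N : E5)‖ := by
      rw [Subtype.dist_eq, dist_eq_norm]
    rw [h7]
    have h8 : ‖(x : E5) - (N : E5)‖ ^ 2 < ε ^ 2 := by nlinarith [pow_pos hε 2]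
    exact lt_of_pow_lt_pow_left₀ 2 hε.le h8
  · intro x v
    refine (h2 x v).trans ?_
    refine mul_le_mul_of_nonneg_right (mul_le_mul_of_nonneg_right ?_ (norm_nonneg _))
      (norm_nonneg _)
    linarith
  · intro x
    refine (h3 x).trans ?_
    have h4 : 0 ≤ 1 - ⟪(N : E5), (x : E5)⟫_ℝ := by
      have := inner_le_one N x
      linarith
    refine mul_le_mul_of_nonneg_right ?_ h4
    linarith

end Pool.Agent.PQP.H6
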